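import Mathlib

/-!
# A law for positive definite sequences of sequences
-/

set_option autoImplicit false

namespace Pool.Agent.K4H61.ZO

open Filter Topology

theorem ratio_mono {x : ℕ → ℝ} (hx0 : ∀ n, 0 < x n) (hx : ∀ n, x (n + 1) ^ 2 ≤ x n * x (n + 2)) :
    Monotone fun n => x (n + 1) / x n := by
  refine monotone_nat_of_le_succ fun n => ?_
  rw [div_le_div_iff₀ (hx0 n) (hx0 (n + 1))]
  have := hx n
  have e : n + 1 + 1 = n + 2 := rfl
  rw [e]
  nlinarith

theorem ratio_le {x y : ℕ → ℝ} (hx0 : ∀ n, 0 < x n) (hx : ∀ n, x (n + 1) ^ 2 ≤ x n * x (n + 2))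
    (hy0 : ∀ n, 0 < y n) {M C : ℝ} (hM : 0 < M) (hyM : ∀ n, y (n + 1) ≤ M * y n)
    (hC : ∀ n, x n ≤ C * y n) (n : ℕ) : x (n + 1) ≤ M * x n := by
  by_contra hcon
  push Not at hcon
  have hxn := hx0 n
  obtain ⟨q, hq⟩ : ∃ q, q = x (n + 1) / (M * x n) := ⟨_, rfl⟩
  have hq1 : 1 < q := by rw [hq, one_lt_div (by positivity)]; exact hcon
  have hq0 : 0 < q := by linarith
  have hmono := ratio_mono hx0 hx
  have hgeo : ∀ j, q * (x (n + j) / y (n + j)) ≤ x (n + (j + 1)) / y (n + (j + 1)) := by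
    intro j
    have h1 : x (n + 1) / x n ≤ x (n + j + 1) / x (n + j) := hmono (Nat.le_add_right n j)
    have h2 : q * M * x (n + j) ≤ x (n + j + 1) := by
      rw [le_div_iff₀ (hx0 (n + j))] at h1
      have e : q * M = x (n + 1) / x n := by rw [hq]; field_simp
      rw [e]; exact h1
    have h3 := hyM (n + j)
    have hxp := hx0 (n + j)
    have hyp := hy0 (n + j)
    rw [← add_assoc, mul_div_assoc', div_le_div_iff₀ (hy0 _) (hy0 _)]
    calc q * x (n + j) * y (n + j + 1) ≤ q * x (n + j) * (M * y (n + j)) := by gcongr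
      _ = (q * M * x (n + j)) * y (n + j) := by ring
      _ ≤ x (n + j + 1) * y (n + j) := by gcongr
  have htop := tendsto_atTop_of_geom_le (v := fun j => x (n + j) / y (n + j))
    (div_pos (hx0 _) (hy0 _)) hq1 hgeo
  obtain ⟨j, hj⟩ := (htop.eventually_gt_atTop C).exists
  have := hC (n + j)
  rw [← div_le_iff₀ (hy0 _)] at this
  linarith

theorem lc {x y : ℕ → ℝ} {μ C : ℝ} (hx0 : ∀ n, 0 ≤ x n)
    (hx : ∀ n, x (n + 1) ^ 2 ≤ x n * x (n + 2)) (hy0 : ∀ n, 0 < y n)
    (hμ : Tendsto (fun n => y (n + 1) / y n) atTop (𝓝 μ)) (hμ0 : 0 < μ)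
    (hyμ : ∀ n, y (n + 1) ≤ μ * y n) (hC : ∀ n, x n ≤ C * y n) :
    Tendsto (fun n => (x (n + 1) - μ * x n) / y n) atTop (𝓝 0) := by
  by_cases hz : ∃ N, x N = 0
  · obtain ⟨N, hN⟩ := hz
    have hall : ∀ j, x (N + j) = 0 := by
      intro j
      induction j with
      | zero => exact hN
      | succ j ih =>
        have h1 := hx (N + j)
        rw [ih, zero_mul] at h1
        have h2 : x (N + j + 1) ^ 2 = 0 := le_antisymm h1 (sq_nonneg _)
        exact pow_eq_zero_iff (two_ne_zero) |>.1 h2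
    refine tendsto_const_nhds.congr' ?_
    filter_upwards [eventually_ge_atTop N] with n hn
    obtain ⟨j, rfl⟩ := Nat.exists_eq_add_of_le hn
    rw [hall j, show N + j + 1 = N + (j + 1) from rfl, hall (j + 1)]
    simp
  · push Not at hz
    have hxp : ∀ n, 0 < x n := fun n => lt_of_le_of_ne (hx0 n) (Ne.symm (hz n))
    have hmono := ratio_mono hxp hx
    have hle := ratio_le hxp hx hy0 hμ0 hyμ hC
    have hρ : ∀ n, x (n + 1) / x n ≤ μ := fun n => by
      rw [div_le_iff₀ (hxp n)]; exact hle n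
    obtain ⟨ν, hν⟩ : ∃ ν, Tendsto (fun n => x (n + 1) / x n) atTop (𝓝 ν) :=
      ⟨_, tendsto_atTop_ciSup hmono ⟨μ, by rintro _ ⟨n, rfl⟩; exact hρ n⟩⟩
    have hνμ : ν ≤ μ := le_of_tendsto' hν hρ
    have hρν : ∀ n, x (n + 1) / x n ≤ ν := fun n => hmono.ge_of_tendsto hν n
    have hν0 : 0 ≤ ν := le_trans (div_nonneg (hx0 _) (hx0 _)) (hρν 0)
    have e : (fun n => (x (n + 1) - μ * x n) / y n)
        = fun n => (x n / y n) * (x (n + 1) / x n - μ) := by
      funext n
      have h1 := hxp n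
      have h2 := hy0 n
      field_simp
    have hw0 : ∀ n, 0 ≤ x n / y n := fun n => div_nonneg (hx0 n) (hy0 n).le
    have hwC : ∀ n, x n / y n ≤ C := fun n => by
      rw [div_le_iff₀ (hy0 n)]; exact hC n
    rw [e]
    rcases hνμ.lt_or_eq with h | h
    · have hw : Tendsto (fun n => x n / y n) atTop (𝓝 0) := by
        apply Summable.tendsto_atTop_zero
        refine summable_of_ratio_norm_eventually_le (r := 2 * ν / (μ + ν)) ?_ ?_
        · rw [div_lt_one (by linarith)]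
          linarith
        · have h1 : ∀ᶠ n in atTop, (μ + ν) / 2 < y (n + 1) / y n :=
            hμ.eventually_const_lt (by linarith)
          filter_upwards [h1] with n hn
          rw [Real.norm_of_nonneg (hw0 _), Real.norm_of_nonneg (hw0 _)]
          have hyn := hy0 n
          have hyn1 := hy0 (n + 1)
          have hxn := hxp n
          have h2 : x (n + 1) ≤ ν * x n := by
            have := hρν n
            rwa [div_le_iff₀ hxn] at this
          have h3 : (μ + ν) / 2 * y n ≤ y (n + 1) := by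
            have := hn.le
            rwa [le_div_iff₀ hyn] at this
          have hs : 0 < μ + ν := by linarith
          rw [div_mul_div_comm, div_le_div_iff₀ hyn1 (by positivity)]
          calc x (n + 1) * ((μ + ν) * y n) ≤ ν * x n * ((μ + ν) * y n) := by gcongr
            _ = 2 * ν * x n * ((μ + ν) / 2 * y n) := by ring
            _ ≤ 2 * ν * x n * y (n + 1) := by gcongr
      have := hw.mul (hν.sub_const μ)
      simpa using this
    · subst h
      have h2 : Tendsto (fun n => C * |x (n + 1) / x n - ν|) atTop (𝓝 0) := by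
        have h3 : Tendsto (fun n => x (n + 1) / x n - ν) atTop (𝓝 0) := by
          simpa using hν.sub_const ν
        simpa using h3.abs.const_mul C
      refine squeeze_zero_norm (fun n => ?_) h2
      rw [norm_mul, Real.norm_of_nonneg (hw0 n), Real.norm_eq_abs]
      gcongr
      exact hwC n

theorem sum_two {N p q : ℕ} (hp : p < N) (hq : q < N) (s t : ℝ) (h : ℕ → ℝ) :
    ∑ i ∈ Finset.range N, (s * (if i = p then 1 else 0) + t * (if i = q then 1 else 0)) * h i
      = s * h p + t * h q := by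
  simp only [add_mul, Finset.sum_add_distrib, mul_assoc, ite_mul, one_mul, zero_mul, mul_ite,
    mul_zero, Finset.sum_ite_eq', Finset.mem_range, hp, hq, if_true]

section main

variable (g : ℕ → ℕ → ℝ)

/-- the sequences to which the convexity is applied -/
def Zt (k δ : ℕ) (a e : ℝ) (n : ℕ) : ℝ :=
  a ^ 2 * g (2 * k) (2 * n + 2 * δ) + 2 * a * e * g k (2 * n + δ) + e ^ 2 * g 0 (2 * n)

theorem Zt_lc (hpsd : ∀ (k n : ℕ) (α β : ℕ → ℝ), 0 ≤ ∑ i ∈ Finset.range n, ∑ j ∈ Finset.range n,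
     (α i * α j * g (2 * k) (i + j) + 2 * α i * β j * g k (i + j) + β i * β j * g 0 (i + j)))
    (k δ : ℕ) (a e : ℝ) (n : ℕ) :
    Zt g k δ a e (n + 1) ^ 2 ≤ Zt g k δ a e n * Zt g k δ a e (n + 2) := by
  have key : ∀ s t : ℝ, 0 ≤ s ^ 2 * Zt g k δ a e n + 2 * s * t * Zt g k δ a e (n + 1)
      + t ^ 2 * Zt g k δ a e (n + 2) := by
    intro s t
    have h := hpsd k (n + 3 + δ)
      (fun i => (a * s) * (if i = n + δ then 1 else 0) + (a * t) * (if i = n + 2 + δ then 1 else 0))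
      (fun i => (e * s) * (if i = n then 1 else 0) + (e * t) * (if i = n + 2 then 1 else 0))
    have hp1 : n + δ < n + 3 + δ := by omega
    have hp2 : n + 2 + δ < n + 3 + δ := by omega
    have hq1 : n < n + 3 + δ := by omega
    have hq2 : n + 2 < n + 3 + δ := by omega
    simp only [Finset.sum_add_distrib] at h
    have e1 : ∀ (u v u' v' : ℝ) (p q p' q' : ℕ) (F : ℕ → ℝ), p < n + 3 + δ → q < n + 3 + δ →
        p' < n + 3 + δ → q' < n + 3 + δ →
        ∑ i ∈ Finset.range (n + 3 + δ), ∑ j ∈ Finset.range (n + 3 + δ),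
          (u * (if i = p then 1 else 0) + v * (if i = q then 1 else 0))
            * (u' * (if j = p' then 1 else 0) + v' * (if j = q' then 1 else 0)) * F (i + j)
        = u * (u' * F (p + p') + v' * F (p + q')) + v * (u' * F (q + p') + v' * F (q + q')) := by
      intro u v u' v' p q p' q' F h1 h2 h3 h4
      have : ∀ i, ∑ j ∈ Finset.range (n + 3 + δ),
          (u * (if i = p then 1 else 0) + v * (if i = q then 1 else 0))
            * (u' * (if j = p' then 1 else 0) + v' * (if j = q' then 1 else 0)) * F (i + j)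
          = (u * (if i = p then 1 else 0) + v * (if i = q then 1 else 0))
            * (u' * F (i + p') + v' * F (i + q')) := by
        intro i
        rw [← sum_two h3 h4 u' v' (fun j => F (i + j)), Finset.mul_sum]
        exact Finset.sum_congr rfl fun j _ => by ring
      rw [Finset.sum_congr rfl fun i _ => this i]
      exact sum_two h1 h2 u v (fun i => u' * F (i + p') + v' * F (i + q'))
    have e2 : ∀ (u v u' v' : ℝ) (p q p' q' : ℕ) (F : ℕ → ℝ), p < n + 3 + δ → q < n + 3 + δ →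
        p' < n + 3 + δ → q' < n + 3 + δ →
        ∑ i ∈ Finset.range (n + 3 + δ), ∑ j ∈ Finset.range (n + 3 + δ),
          2 * (u * (if i = p then 1 else 0) + v * (if i = q then 1 else 0))
            * (u' * (if j = p' then 1 else 0) + v' * (if j = q' then 1 else 0)) * F (i + j)
        = 2 * (u * (u' * F (p + p') + v' * F (p + q'))
          + v * (u' * F (q + p') + v' * F (q + q'))) := by
      intro u v u' v' p q p' q' F h1 h2 h3 h4
      rw [← e1 u v u' v' p q p' q' F h1 h2 h3 h4, Finset.mul_sum]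
      refine Finset.sum_congr rfl fun i _ => ?_
      rw [Finset.mul_sum]
      exact Finset.sum_congr rfl fun j _ => by ring
    rw [e1 _ _ _ _ _ _ _ _ (g (2 * k)) hp1 hp2 hp1 hp2, e2 _ _ _ _ _ _ _ _ (g k) hp1 hp2 hq1 hq2,
      e1 _ _ _ _ _ _ _ _ (g 0) hq1 hq2 hq1 hq2] at h
    have i1 : n + δ + (n + δ) = 2 * n + 2 * δ := by ring
    have i2 : n + δ + (n + 2 + δ) = 2 * (n + 1) + 2 * δ := by ring
    have i3 : n + 2 + δ + (n + δ) = 2 * (n + 1) + 2 * δ := by ring
    have i4 : n + 2 + δ + (n + 2 + δ) = 2 * (n + 2) + 2 * δ := by ring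
    have j1 : n + δ + n = 2 * n + δ := by ring
    have j2 : n + δ + (n + 2) = 2 * (n + 1) + δ := by ring
    have j3 : n + 2 + δ + n = 2 * (n + 1) + δ := by ring
    have j4 : n + 2 + δ + (n + 2) = 2 * (n + 2) + δ := by ring
    have l1 : n + n = 2 * n := by ring
    have l2 : n + (n + 2) = 2 * (n + 1) := by ring
    have l3 : n + 2 + n = 2 * (n + 1) := by ring
    have l4 : n + 2 + (n + 2) = 2 * (n + 2) := by ring
    rw [i1, i2, i3, i4, j1, j2, j3, j4, l1, l2, l3, l4] at h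
    unfold Zt
    refine h.trans (le_of_eq ?_)
    ring
  have hd := discrim_le_zero (a := Zt g k δ a e (n + 2)) (b := 2 * Zt g k δ a e (n + 1))
    (c := Zt g k δ a e n) (fun x => by
      have := key 1 x
      nlinarith)
  unfold discrim at hd
  nlinarith

end main

theorem seq_law (g : ℕ → ℕ → ℝ) (b : ℕ) (r θ D : ℝ) (hr : 0 < r) (hθ : 0 < θ)
    (h0 : ∀ k m, 0 ≤ g k m) (h1 : ∀ m, 1 ≤ g 0 m) (hmono : ∀ m, g 0 m ≤ g 0 (m + 1))
    (hD : ∀ m, g 0 m ≤ D ^ m)
    (hbd : ∀ k m, g (k + 1) m ≤ r * g k (m + 2 * b))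
    (hsq : ∀ k m, θ * g k m ≤ r ^ 2 * g k (m + 4 * b) - 2 * r * g (k + 1) (m + 2 * b)
      + g (k + 2) m)
    (hpsd : ∀ (k n : ℕ) (α β : ℕ → ℝ), 0 ≤ ∑ i ∈ Finset.range n, ∑ j ∈ Finset.range n,
     (α i * α j * g (2 * k) (i + j) + 2 * α i * β j * g k (i + j) + β i * β j * g 0 (i + j))) :
    ∀ ε : ℝ, 0 < ε → ∀ᶠ m in Filter.atTop, (Real.sqrt θ - ε) * g 0 m
      ≤ r * g 0 (m + 2 * b) - g 1 m := by
  have hpos : ∀ m, 0 < g 0 m := fun m => lt_of_lt_of_le one_pos (h1 m)
  have hM : Monotone (g 0) := monotone_nat_of_le_succ hmono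
  have hD1 : 1 ≤ D := by
    have := (h1 1).trans (hD 1)
    simpa using this
  -- (1) the limit ratio
  have hylc : ∀ n, g 0 (2 * (n + 1)) ^ 2 ≤ g 0 (2 * n) * g 0 (2 * (n + 2)) := by
    intro n
    have := Zt_lc g hpsd 0 0 0 1 n
    unfold Zt at this
    norm_num at this
    exact this
  have hyM : ∀ n, g 0 (2 * (n + 1)) ≤ D ^ 2 * g 0 (2 * n) :=
    ratio_le (x := fun n => g 0 (2 * n)) (y := fun n => (D ^ 2) ^ n) (C := 1)
      (fun n => hpos _) hylc (fun n => by positivity) (by positivity)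
      (fun n => by rw [pow_succ]; exact le_of_eq (mul_comm _ _))
      (fun n => by
        rw [one_mul, ← pow_mul]
        exact hD _)
  have hymono := ratio_mono (x := fun n => g 0 (2 * n)) (fun n => hpos _) hylc
  obtain ⟨μ, hμ⟩ : ∃ μ, Tendsto (fun n => g 0 (2 * (n + 1)) / g 0 (2 * n)) atTop (𝓝 μ) :=
    ⟨_, tendsto_atTop_ciSup hymono ⟨D ^ 2, by
      rintro _ ⟨n, rfl⟩
      show g 0 (2 * (n + 1)) / g 0 (2 * n) ≤ D ^ 2
      rw [div_le_iff₀ (hpos _)]
      exact hyM n⟩⟩
  have hyμ : ∀ n, g 0 (2 * (n + 1)) ≤ μ * g 0 (2 * n) := by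
    intro n
    have : g 0 (2 * (n + 1)) / g 0 (2 * n) ≤ μ := hymono.ge_of_tendsto hμ n
    rwa [div_le_iff₀ (hpos _)] at this
  have hμ0 : 0 < μ := by
    have h2 : g 0 (2 * (0 + 1)) / g 0 (2 * 0) ≤ μ := hymono.ge_of_tendsto hμ 0
    exact lt_of_lt_of_le (div_pos (hpos _) (hpos _)) h2
  -- shifts cost a bounded factor
  have hpow : ∀ s n, g 0 (2 * (n + s)) ≤ μ ^ s * g 0 (2 * n) := by
    intro s n
    induction s with
    | zero => simp
    | succ s ih =>
      calc g 0 (2 * (n + (s + 1))) ≤ μ * g 0 (2 * (n + s)) := hyμ (n + s)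
        _ ≤ μ * (μ ^ s * g 0 (2 * n)) := by gcongr
        _ = μ ^ (s + 1) * g 0 (2 * n) := by ring
  have hshift : ∀ s, ∃ K : ℝ, 0 ≤ K ∧ ∀ m, g 0 (m + s) ≤ K * g 0 m := by
    intro s
    refine ⟨μ ^ (s + 1), by positivity, fun m => ?_⟩
    calc g 0 (m + s) ≤ g 0 (2 * (m / 2 + (s + 1))) := hM (by omega)
      _ ≤ μ ^ (s + 1) * g 0 (2 * (m / 2)) := hpow _ _
      _ ≤ μ ^ (s + 1) * g 0 m := by
        gcongr
        exact hM (by omega)
  have hbdk : ∀ k m, g k m ≤ r ^ k * g 0 (m + 2 * b * k) := by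
    intro k
    induction k with
    | zero => intro m; simp
    | succ k ih =>
      intro m
      calc g (k + 1) m ≤ r * g k (m + 2 * b) := hbd k m
        _ ≤ r * (r ^ k * g 0 (m + 2 * b + 2 * b * k)) := by gcongr; exact ih _
        _ = r ^ (k + 1) * g 0 (m + 2 * b * (k + 1)) := by
          rw [show m + 2 * b + 2 * b * k = m + 2 * b * (k + 1) by ring]; ring
  have hK : ∀ k s, ∃ K : ℝ, 0 ≤ K ∧ ∀ m, g k (m + s) ≤ K * g 0 m := by
    intro k s
    obtain ⟨K, hK0, hK⟩ := hshift (s + 2 * b * k)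
    refine ⟨r ^ k * K, by positivity, fun m => ?_⟩
    calc g k (m + s) ≤ r ^ k * g 0 (m + s + 2 * b * k) := hbdk k _
      _ ≤ r ^ k * (K * g 0 m) := by
        gcongr
        rw [add_assoc]
        exact hK m
      _ = r ^ k * K * g 0 m := by ring
  -- (2)
  have hZ : ∀ (k δ : ℕ) (a : ℝ), 0 ≤ a → ∀ e : ℝ, 0 ≤ e →
      Tendsto (fun n => (Zt g k δ a e (n + 1) - μ * Zt g k δ a e n) / g 0 (2 * n)) atTop (𝓝 0) := by
    intro k δ a ha e he
    obtain ⟨K1, hK1, hK1'⟩ := hK (2 * k) (2 * δ)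
    obtain ⟨K2, hK2, hK2'⟩ := hK k δ
    refine lc (C := a ^ 2 * K1 + 2 * a * e * K2 + e ^ 2) (fun n => ?_)
      (Zt_lc g hpsd k δ a e) (fun n => hpos _) hμ hμ0 hyμ (fun n => ?_)
    · unfold Zt
      have i1 := h0 (2 * k) (2 * n + 2 * δ)
      have i2 := h0 k (2 * n + δ)
      have i3 := h0 0 (2 * n)
      positivity
    · unfold Zt
      have i1 := hK1' (2 * n)
      have i2 := hK2' (2 * n)
      calc a ^ 2 * g (2 * k) (2 * n + 2 * δ) + 2 * a * e * g k (2 * n + δ) + e ^ 2 * g 0 (2 * n)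
          ≤ a ^ 2 * (K1 * g 0 (2 * n)) + 2 * a * e * (K2 * g 0 (2 * n)) + e ^ 2 * g 0 (2 * n) := by
            gcongr
        _ = (a ^ 2 * K1 + 2 * a * e * K2 + e ^ 2) * g 0 (2 * n) := by ring
  have hT1 : ∀ k δ : ℕ, Tendsto (fun n => (g k (2 * n + δ + 2) - μ * g k (2 * n + δ))
      / g 0 (2 * n)) atTop (𝓝 0) := by
    intro k δ
    have t1 := hZ k δ 1 zero_le_one 1 zero_le_one
    have t2 := hZ k δ 1 zero_le_one 0 le_rfl
    have t3 := hZ k δ 0 le_rfl 1 zero_le_one
    have t4 := ((t1.sub t2).sub t3).const_mul (1 / 2 : ℝ)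
    simp only [sub_zero, mul_zero] at t4
    refine t4.congr fun n => ?_
    unfold Zt
    have e1 : 2 * (n + 1) + δ = 2 * n + δ + 2 := by ring
    rw [e1]
    have := hpos (2 * n)
    field_simp
    ring
  have hT2 : ∀ k : ℕ, Tendsto (fun m => (g k (m + 2) - μ * g k m) / g 0 m) atTop (𝓝 0) := by
    intro k
    rw [Metric.tendsto_atTop]
    intro ε hε
    obtain ⟨N0, hN0⟩ := Metric.tendsto_atTop.1 (hT1 k 0) ε hε
    obtain ⟨N1, hN1⟩ := Metric.tendsto_atTop.1 (hT1 k 1) ε hε
    refine ⟨2 * (N0 + N1) + 2, fun m hm => ?_⟩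
    have hcomp : ∀ n δ, m = 2 * n + δ → dist ((g k (m + 2) - μ * g k m) / g 0 m) 0
        ≤ dist ((g k (2 * n + δ + 2) - μ * g k (2 * n + δ)) / g 0 (2 * n)) 0 := by
      rintro n δ rfl
      rw [dist_zero_right, dist_zero_right, norm_div, norm_div,
        Real.norm_of_nonneg (h0 0 _), Real.norm_of_nonneg (h0 0 _)]
      apply div_le_div_of_nonneg_left (norm_nonneg _) (hpos _)
      exact hM (by omega)
    rcases Nat.even_or_odd' m with ⟨n, hn | hn⟩
    · exact lt_of_le_of_lt (hcomp n 0 (by omega)) (hN0 n (by omega))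
    · exact lt_of_le_of_lt (hcomp n 1 hn) (hN1 n (by omega))
  have hT3 : ∀ k j : ℕ, Tendsto (fun m => (g k (m + 2 * j) - μ ^ j * g k m) / g 0 m)
      atTop (𝓝 0) := by
    intro k j
    induction j with
    | zero =>
      refine tendsto_const_nhds.congr fun m => ?_
      simp
    | succ j ih =>
      obtain ⟨K, hK0, hK'⟩ := hshift (2 * j)
      have t1 : Tendsto (fun m => (g k (m + 2 * j + 2) - μ * g k (m + 2 * j))
          / g 0 (m + 2 * j)) atTop (𝓝 0) :=
        (hT2 k).comp (tendsto_add_atTop_nat (2 * j))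
      have t2 : Tendsto (fun m => (g k (m + 2 * j + 2) - μ * g k (m + 2 * j)) / g 0 m)
          atTop (𝓝 0) := by
        have t3 := (t1.abs.const_mul K)
        rw [abs_zero, mul_zero] at t3
        refine squeeze_zero_norm (fun m => ?_) t3
        have p1 := hpos m
        have p2 := hpos (m + 2 * j)
        rw [norm_div, Real.norm_of_nonneg (h0 0 m), abs_div, abs_of_pos p2, Real.norm_eq_abs,
          ← mul_div_assoc, div_le_div_iff₀ p1 p2]
        have := hK' m
        have p3 := abs_nonneg (g k (m + 2 * j + 2) - μ * g k (m + 2 * j))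
        nlinarith
      have t4 := t2.add (ih.const_mul μ)
      rw [mul_zero, add_zero] at t4
      refine t4.congr fun m => ?_
      rw [show m + 2 * (j + 1) = m + 2 * j + 2 by ring]
      have p1 := hpos m
      field_simp
      ring
  -- (3)
  obtain ⟨c, hc⟩ : ∃ c, c = μ ^ b := ⟨_, rfl⟩
  have hc0 : 0 < c := by rw [hc]; positivity
  obtain ⟨C, hC⟩ : ∃ C, C = r * c := ⟨_, rfl⟩
  have hC0 : 0 < C := by rw [hC]; positivity
  obtain ⟨t, ht⟩ : ∃ t, t = Real.sqrt θ := ⟨_, rfl⟩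
  have ht0 : 0 < t := by rw [ht]; exact Real.sqrt_pos.2 hθ
  have ht2 : t ^ 2 = θ := by rw [ht]; exact Real.sq_sqrt hθ.le
  have hE : ∀ k, ∃ E : ℕ → ℝ, Tendsto E atTop (𝓝 0) ∧ ∀ m,
      g k (m + 2 * b) ≤ c * g k m + E m * g 0 m ∧ c * g k m - E m * g 0 m ≤ g k (m + 2 * b) := by
    intro k
    have t1 := (hT3 k b).abs
    rw [abs_zero] at t1
    refine ⟨_, t1, fun m => ?_⟩
    have p1 := hpos m
    rw [abs_div, abs_of_pos p1, div_mul_cancel₀ _ p1.ne', hc]
    constructor
    · linarith [le_abs_self (g k (m + 2 * b) - μ ^ b * g k m)]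
    · linarith [neg_abs_le (g k (m + 2 * b) - μ ^ b * g k m)]
  have hE' : ∀ k, ∃ E : ℕ → ℝ, Tendsto E atTop (𝓝 0) ∧ ∀ m,
      g k (m + 4 * b) ≤ c ^ 2 * g k m + E m * g 0 m := by
    intro k
    have t1 := (hT3 k (2 * b)).abs
    rw [abs_zero] at t1
    refine ⟨_, t1, fun m => ?_⟩
    have p1 := hpos m
    rw [abs_div, abs_of_pos p1, div_mul_cancel₀ _ p1.ne', hc,
      show m + 2 * (2 * b) = m + 4 * b by ring, show (μ ^ b) ^ 2 = μ ^ (2 * b) by ring]
    linarith [le_abs_self (g k (m + 4 * b) - μ ^ (2 * b) * g k m)]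
  have hU : ∀ k, ∃ e : ℕ → ℝ, Tendsto e atTop (𝓝 0) ∧ ∀ m, g k m ≤ (C ^ k + e m) * g 0 m := by
    intro k
    induction k with
    | zero => exact ⟨fun _ => 0, tendsto_const_nhds, fun m => by simp⟩
    | succ k ih =>
      obtain ⟨e, he, he'⟩ := ih
      obtain ⟨E, hE1, hE2⟩ := hE k
      refine ⟨fun m => C * e m + r * E m, ?_, fun m => ?_⟩
      · have := (he.const_mul C).add (hE1.const_mul r)
        simpa using this
      · have p1 := hpos m
        calc g (k + 1) m ≤ r * g k (m + 2 * b) := hbd k m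
          _ ≤ r * (c * g k m + E m * g 0 m) := by gcongr; exact (hE2 m).1
          _ ≤ r * (c * ((C ^ k + e m) * g 0 m) + E m * g 0 m) := by gcongr; exact he' m
          _ = (C ^ (k + 1) + (C * e m + r * E m)) * g 0 m := by rw [hC]; ring
  have hDn : ∀ k, ∃ e : ℕ → ℝ, Tendsto e atTop (𝓝 0) ∧ ∀ m,
      (C + t) ^ k * (g 1 m - (C - t) * g 0 m) - e m * g 0 m
        ≤ g (k + 1) m - (C - t) * g k m := by
    intro k
    induction k with
    | zero => exact ⟨fun _ => 0, tendsto_const_nhds, fun m => by simp⟩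
    | succ k ih =>
      obtain ⟨e, he, he'⟩ := ih
      obtain ⟨E1, hE1, hE1'⟩ := hE (k + 1)
      obtain ⟨E2, hE2, hE2'⟩ := hE' k
      refine ⟨fun m => (C + t) * e m + (r ^ 2 * E2 m + 2 * r * E1 m), ?_, fun m => ?_⟩
      · have := (he.const_mul (C + t)).add ((hE2.const_mul (r ^ 2)).add (hE1.const_mul (2 * r)))
        simpa using this
      · have s1 := hsq k m
        have s2 := hE2' m
        have s3 := (hE1' m).2
        have s4 := he' m
        have r2 : 0 < r ^ 2 := by positivity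
        have s5 : r ^ 2 * g k (m + 4 * b) ≤ r ^ 2 * (c ^ 2 * g k m + E2 m * g 0 m) := by gcongr
        have s6 : 2 * r * (c * g (k + 1) m - E1 m * g 0 m) ≤ 2 * r * g (k + 1) (m + 2 * b) := by
          gcongr
        have s7 : (C + t) * ((C + t) ^ k * (g 1 m - (C - t) * g 0 m) - e m * g 0 m)
            ≤ (C + t) * (g (k + 1) m - (C - t) * g k m) := by gcongr
        have s8 : g (k + 1 + 1) m = g (k + 2) m := rfl
        rw [s8]
        have s9 : t ^ 2 * g k m ≤ C ^ 2 * g k m + r ^ 2 * E2 m * g 0 m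
            - (2 * C * g (k + 1) m - 2 * r * E1 m * g 0 m) + g (k + 2) m := by
          rw [ht2, hC]
          nlinarith
        have s10 : (C + t) ^ (k + 1) * (g 1 m - (C - t) * g 0 m)
            = (C + t) * ((C + t) ^ k * (g 1 m - (C - t) * g 0 m)) := by ring
        rw [s10]
        nlinarith
  -- the final estimate
  intro ε hε
  rw [← ht]
  have hq : Tendsto (fun k : ℕ => (C + t) * (C / (C + t)) ^ k) atTop (𝓝 0) := by
    have h2 : C / (C + t) < 1 := by rw [div_lt_one (by linarith)]; linarith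
    have := (tendsto_pow_atTop_nhds_zero_of_lt_one (by positivity) h2).const_mul (C + t)
    simpa using this
  obtain ⟨k, hk⟩ := (hq.eventually_lt_const (show (0 : ℝ) < ε / 3 by linarith)).exists
  obtain ⟨e1, he1, he1'⟩ := hU (k + 1)
  obtain ⟨e2, he2, he2'⟩ := hU k
  obtain ⟨e3, he3, he3'⟩ := hDn k
  obtain ⟨E, hE1, hE2⟩ := hE 0
  have hCt : 0 < (C + t) ^ k := by positivity
  have herr : Tendsto (fun m => e1 m + t * e2 m + e3 m) atTop (𝓝 0) := by
    have := (he1.add (he2.const_mul t)).add he3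
    simpa using this
  have hev1 : ∀ᶠ m in atTop, e1 m + t * e2 m + e3 m < ε / 3 * (C + t) ^ k :=
    herr.eventually_lt_const (by positivity)
  have hev2 : ∀ᶠ m in atTop, r * E m < ε / 3 := by
    have := hE1.const_mul r
    rw [mul_zero] at this
    exact this.eventually_lt_const (by linarith)
  filter_upwards [hev1, hev2] with m hm1 hm2
  have p0 := hpos m
  have a1 := he1' m
  have a2 := he2' m
  have a3 := he3' m
  have a4 := (hE2 m).2
  have a5 : t * g k m ≤ t * ((C ^ k + e2 m) * g 0 m) := by gcongr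
  have a6 : 0 ≤ C * g k m := mul_nonneg hC0.le (h0 k m)
  have a7 : (C + t) ^ k * (g 1 m - (C - t) * g 0 m)
      ≤ ((C + t) * C ^ k + (e1 m + t * e2 m + e3 m)) * g 0 m := by
    have : g (k + 1) m - (C - t) * g k m ≤ g (k + 1) m + t * g k m := by nlinarith
    have e : C ^ (k + 1) = C * C ^ k := by ring
    rw [e] at a1
    nlinarith
  have a8 : (C + t) * C ^ k ≤ ε / 3 * (C + t) ^ k := by
    have e : (C + t) * (C / (C + t)) ^ k = (C + t) * C ^ k / (C + t) ^ k := by
      rw [div_pow]; ring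
    rw [e, div_lt_iff₀ hCt] at hk
    exact hk.le
  have a9 : (C + t) ^ k * (g 1 m - (C - t) * g 0 m) ≤ (C + t) ^ k * (2 * ε / 3 * g 0 m) := by
    refine a7.trans ?_
    have : ((C + t) * C ^ k + (e1 m + t * e2 m + e3 m)) ≤ (C + t) ^ k * (2 * ε / 3) := by
      linarith
    calc ((C + t) * C ^ k + (e1 m + t * e2 m + e3 m)) * g 0 m
        ≤ (C + t) ^ k * (2 * ε / 3) * g 0 m := by gcongr
      _ = _ := by ring
  have a10 : g 1 m - (C - t) * g 0 m ≤ 2 * ε / 3 * g 0 m := le_of_mul_le_mul_left a9 hCt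
  have a11 : r * (c * g 0 m - E m * g 0 m) ≤ r * g 0 (m + 2 * b) := by gcongr
  have a12 : r * E m * g 0 m ≤ ε / 3 * g 0 m := by gcongr
  have a13 : r * (c * g 0 m - E m * g 0 m) = C * g 0 m - r * E m * g 0 m := by rw [hC]; ring
  rw [a13] at a11
  nlinarith

end Pool.Agent.K4H61.ZO
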